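import Pool.Agent.H379R3.RC.U
import Pool.Agent.H379R3.RC.L4
import Pool.Agent.H379R3.RC.L5

/-!
# The Glaser-Grosse-Martin value of the sharp Cwikel-Lieb-Rozenblum constant for radial potentials
in dimension three

The statement is the case `d = 3` of the frozen statement S10849 with the additional assumption
that the potential is radial.

The proof reduces to the sharp one-dimensional Lieb-Thirring inequality (starting files, helper490)
by spherical harmonics; the modules under `Pool/Agent/H379R3/RC` were written by the helpers 51, 59,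
116, 140, 189, 268, 329, 379, 406, 457, 558, 562, 605, 682, 726, 850, 898, 956 and 959.
-/

set_option autoImplicit false

open MeasureTheory

namespace Pool.Agent.Results.MP_efa090_mp.RadialThree

open Pool.Agent.H379R3.RC

theorem aL_eq : (fun L : ℕ =>
    ((Nat.factorial (L + 3 - 1) : ℝ) / (Nat.factorial L : ℝ)) * ((L : ℝ) + ((3 : ℕ) : ℝ) / 2) /
      (((L : ℝ) + (((3 : ℕ) : ℝ) - 2) / 2) * ((L : ℝ) + ((3 : ℕ) : ℝ) / 2)) ^ (((3 : ℕ) : ℝ) / 2)) =
    fun L : ℕ =>
    ((Nat.factorial (L + 2) : ℝ) / (Nat.factorial L : ℝ)) * ((L : ℝ) + 3 / 2) /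
      (((L : ℝ) + 1 / 2) * ((L : ℝ) + 3 / 2)) ^ (3 / 2 : ℝ) := by
  funext L
  have h1 : L + 3 - 1 = L + 2 := rfl
  have h2 : (((3 : ℕ) : ℝ) - 2) / 2 = 1 / 2 := by norm_num
  have h3 : ((3 : ℕ) : ℝ) / 2 = 3 / 2 := by norm_num
  rw [h1, h2, h3]

theorem const_eq : (4 * Real.pi) ^ (-(3 / 2 : ℝ)) / Real.Gamma (5 / 2) * (8 / √3) =
    4 / (3 * √3 * Real.pi ^ 2) := by
  have h := L5_aL.2
  have h1 : -((3 : ℕ) : ℝ) / 2 = -(3 / 2 : ℝ) := by norm_num
  have h2 : 1 + ((3 : ℕ) : ℝ) / 2 = 5 / 2 := by norm_num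
  rw [h1, h2] at h
  exact h

/-- For radial potentials in dimension three the sharp Cwikel-Lieb-Rozenblum constant is the
classical constant times the supremum of the numbers `a_L`. -/
theorem result :
    ∃ s : ℝ,
      IsLUB (Set.range (fun L : ℕ =>
        ((Nat.factorial (L + 2) : ℝ) / (Nat.factorial L : ℝ)) * ((L : ℝ) + 3 / 2) /
          (((L : ℝ) + 1 / 2) * ((L : ℝ) + 3 / 2)) ^ (3 / 2 : ℝ))) s ∧
      IsLUB {r : ℝ | ∃ W : EuclideanSpace ℝ (Fin 3) → ℝ,
          ∃ S : Submodule ℝ (EuclideanSpace ℝ (Fin 3) → ℝ),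
          Measurable W ∧ (∀ x, 0 ≤ W x) ∧
          (∀ x y, ‖x‖ = ‖y‖ → W x = W y) ∧
          Integrable (fun x => W x ^ (3 / 2 : ℝ)) ∧
          0 < ∫ x, W x ^ (3 / 2 : ℝ) ∧
          FiniteDimensional ℝ S ∧
          (∀ u ∈ S, ContDiff ℝ ((⊤ : ℕ∞) : WithTop ℕ∞) u ∧ HasCompactSupport u) ∧
          (∀ u ∈ S, u ≠ 0 → ∫ x, ‖fderiv ℝ u x‖ ^ 2 < ∫ x, W x * u x ^ 2) ∧
          r = (Module.finrank ℝ S : ℝ) / ∫ x, W x ^ (3 / 2 : ℝ)}
        ((4 * Real.pi) ^ (-(3 / 2 : ℝ)) / Real.Gamma (5 / 2) * s) := by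
  refine ⟨8 / √3, ?_, ?_⟩
  · have h := L5_aL.1.isLUB
    rwa [aL_eq] at h
  · rw [const_eq]
    constructor
    · rintro r ⟨W, S, hWm, hW0, hWr, hWi, hpos, hf, hS, hneg, rfl⟩
      rw [div_le_iff₀ hpos]
      exact U_bound W hWm hW0 hWr hWi S hf hS hneg
    · intro b hb
      by_contra hlt
      rw [not_le] at hlt
      obtain ⟨W, u, hWm, hW0, hWr, hWi, hpos, hu, hu0, hneg, hc⟩ := L4_sharp b hlt
      have h1 : (1 : ℝ) / ∫ x, W x ^ (3 / 2 : ℝ) ≤ b := by
        refine hb ⟨W, Submodule.span ℝ {u}, hWm, hW0, hWr, hWi, hpos, inferInstance, ?_, ?_, ?_⟩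
        · intro v hv
          obtain ⟨a, rfl⟩ := Submodule.mem_span_singleton.1 hv
          refine ⟨hu.1.const_smul a, ?_⟩
          refine hu.2.mono fun x hx => ?_
          simp only [Function.mem_support, Pi.smul_apply, smul_eq_mul] at hx ⊢
          exact fun h => hx (by rw [h, mul_zero])
        · intro v hv hv0
          obtain ⟨a, rfl⟩ := Submodule.mem_span_singleton.1 hv
          have ha : a ≠ 0 := fun h => hv0 (by rw [h, zero_smul])
          have h2 : ∀ x, fderiv ℝ (a • u) x = a • fderiv ℝ u x := fun x =>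
            fderiv_const_smul (hu.1.differentiable (by simp) x) a
          have h3 : ∀ x, W x * (a • u) x ^ 2 = a ^ 2 * (W x * u x ^ 2) := fun x => by
            simp only [Pi.smul_apply, smul_eq_mul]
            ring
          simp only [h2, h3, norm_smul, mul_pow, Real.norm_eq_abs, sq_abs, integral_const_mul]
          exact mul_lt_mul_of_pos_left hneg (by positivity)
        · rw [finrank_span_singleton hu0]
          norm_num
      linarith

end Pool.Agent.Results.MP_efa090_mp.RadialThree
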